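import Mathlib
import Pool.Agent.W751.CD.Stm

/-!
# Monic polynomials with random roots in a disc: definitions and statements of the parts

Project RR (MP_28f8a1_an): if `ρ ^ 2 ≠ e` then the proportion of the hyperbolic polynomials among
the monic polynomials of degree `N` with all roots in the disc of radius `ρ` tends to one.
-/

set_option autoImplicit false

open Polynomial Filter Topology MeasureTheory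

namespace Pool.Agent.W751.RR

open Pool.Agent.W751.CD

/-- the uniform probability measure on the disc of radius `ρ` -/
noncomputable def m1 (ρ : ℝ) : Measure ℂ :=
  (volume (Metric.closedBall (0 : ℂ) ρ))⁻¹ • volume.restrict (Metric.closedBall (0 : ℂ) ρ)

/-- `N` independent uniform points in the disc -/
noncomputable def mN (ρ : ℝ) (N : ℕ) : Measure (Fin N → ℂ) := Measure.pi fun _ => m1 ρ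

/-- the logarithmic potential of `m1 ρ` at distance `r` from the origin -/
noncomputable def U (ρ r : ℝ) : ℝ :=
  if r ≤ ρ then Real.log ρ - (1 - r ^ 2 / ρ ^ 2) / 2 else Real.log r

/-- the zero of the potential (for `ρ ^ 2 < e`) -/
noncomputable def r0 (ρ : ℝ) : ℝ := if ρ ≤ 1 then 1 else ρ * Real.sqrt (1 - 2 * Real.log ρ)

/-- the Cauchy transform of `m1 ρ` -/
noncomputable def V (ρ : ℝ) (w : ℂ) : ℂ :=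
  if ‖w‖ ≤ ρ then (starRingEnd ℂ) w / (ρ : ℂ) ^ 2 else w⁻¹

/-- half of the width (in logarithmic scale) of the transition annulus -/
noncomputable def hN (K : ℝ) (N : ℕ) : ℝ := K * Real.sqrt (Real.log N / N)

/-- mean of `log |(P z)'|` on the circle of radius `r` -/
noncomputable def J {N : ℕ} (z : Fin N → ℂ) (r : ℝ) : ℝ :=
  Real.circleAverage (fun w : ℂ => Real.log ‖(derivative (P z)).eval w‖) 0 r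

/-! ### One variable integrals -/

/-- (POTA) The potential of the disc. -/
def S_POTA : Prop := ∀ ρ : ℝ, 0 < ρ → ∀ w : ℂ,
  Integrable (fun z : ℂ => Real.log ‖w - z‖) (m1 ρ) ∧ ∫ z, Real.log ‖w - z‖ ∂(m1 ρ) = U ρ ‖w‖

/-- (POTB) Bounds of two kernels. -/
def S_POTB : Prop := ∀ ρ : ℝ, 0 < ρ → ∃ C : ℝ, 0 < C ∧
  (∀ w : ℂ, ∫⁻ z, ENNReal.ofReal (‖w - z‖⁻¹) ∂(m1 ρ) ≤ ENNReal.ofReal C) ∧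
  ∀ N : ℕ, 2 ≤ N → ∀ w : ℂ,
    ∫⁻ z in {z : ℂ | 1 / (N : ℝ) ≤ ‖w - z‖}, ENNReal.ofReal ((‖w - z‖ ^ 2)⁻¹) ∂(m1 ρ) ≤
      ENNReal.ofReal (C * Real.log N)

/-- (POTC) The Cauchy transform of the disc. -/
def S_POTC : Prop := ∀ ρ : ℝ, 0 < ρ → ∀ w : ℂ,
  Integrable (fun z : ℂ => (w - z)⁻¹) (m1 ρ) ∧ ∫ z, (w - z)⁻¹ ∂(m1 ρ) = V ρ w

/-- (POTD) A second moment. -/
def S_POTD : Prop := ∀ ρ B : ℝ, 0 < ρ → ∃ C : ℝ, 0 < C ∧ ∀ w : ℂ, ‖w‖ ≤ B →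
  ∫⁻ z, ENNReal.ofReal ((Real.log ‖w - z‖) ^ 2 *
    (‖w - z‖ ^ (1 / 2 : ℝ) + ‖w - z‖ ^ (-(1 / 2) : ℝ) + 1)) ∂(m1 ρ) ≤ ENNReal.ofReal C

/-- exponential moments (conclusion of `S_MOM`) -/
def MOMc : Prop := ∀ ρ B : ℝ, 0 < ρ → ∃ C : ℝ, 0 < C ∧ ∀ w : ℂ, ‖w‖ ≤ B → ∀ q : ℝ, 0 ≤ q →
  q ≤ 1 / 2 →
  (∀ η : ℝ, 0 ≤ η → η ≤ 1 → ∫⁻ z, ENNReal.ofReal ((‖w - z‖ + η) ^ q) ∂(m1 ρ) ≤
    ENNReal.ofReal (Real.exp (q * U ρ ‖w‖ + C * q * η + C * q ^ 2))) ∧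
  ∫⁻ z, ENNReal.ofReal (‖w - z‖ ^ (-q)) ∂(m1 ρ) ≤
    ENNReal.ofReal (Real.exp (-q * U ρ ‖w‖ + C * q ^ 2))

/-- (MOM) -/
def S_MOM : Prop := S_POTA → S_POTB → S_POTD → MOMc

/-- (UU) Elementary properties of the potential. -/
def S_UU : Prop :=
  (∀ ρ : ℝ, 0 < ρ → ρ ^ 2 < Real.exp 1 → 0 < r0 ρ ∧ U ρ (r0 ρ) = 0 ∧
    (∃ c : ℝ, 0 < c ∧ ∀ h : ℝ, 0 ≤ h → h ≤ 1 →
      (∀ r : ℝ, 0 ≤ r → r ≤ r0 ρ * Real.exp (-h) → U ρ r ≤ -(c * h)) ∧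
      (∀ r : ℝ, r0 ρ * Real.exp h ≤ r → c * h ≤ U ρ r) ∧
      U ρ (r0 ρ * Real.exp h) + U ρ (r0 ρ * Real.exp (-h)) ≤ 2 * h ^ 2) ∧
    ∃ η : ℝ, 0 < η ∧ ∀ w : ℂ, r0 ρ / 2 ≤ ‖w‖ → ‖w‖ ≤ 2 * r0 ρ → η ≤ ‖V ρ w‖) ∧
  (∀ ρ : ℝ, 0 < ρ → Real.exp 1 < ρ ^ 2 → ∃ c : ℝ, 0 < c ∧ ∀ r : ℝ, 0 ≤ r → c ≤ U ρ r)

/-! ### The events -/

/-- (EV1) The polynomial is small where the potential is negative. -/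
def S_EV1 : Prop := MOMc → ∀ ρ c θ : ℝ, 0 < ρ → 0 < c → 0 < θ → ∃ K₀ : ℝ, 0 < K₀ ∧
  ∀ K : ℝ, K₀ ≤ K → ∃ C : ℝ, 0 < C ∧ ∀ N : ℕ, 2 ≤ N →
    mN ρ N {z | ∃ w : ℂ, ‖w‖ ≤ ρ + 3 ∧ U ρ ‖w‖ ≤ -(c * hN K N) ∧ θ < ‖(P z).eval w‖} ≤
      ENNReal.ofReal (C / N)

/-- (EV2) The polynomial is large where the potential is positive, off small discs. -/
def S_EV2 : Prop := MOMc → ∀ ρ c : ℝ, 0 < ρ → 0 < c → ∃ K₀ : ℝ, 0 < K₀ ∧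
  ∀ K : ℝ, K₀ ≤ K → ∃ C : ℝ, 0 < C ∧ ∀ N : ℕ, 2 ≤ N →
    mN ρ N {z | ∃ w : ℂ, c * hN K N ≤ U ρ ‖w‖ ∧ (∀ i, 1 / (N : ℝ) ^ 4 ≤ ‖w - z i‖) ∧
      ‖(P z).eval w‖ ≤ ρ + 3} ≤ ENNReal.ofReal (C / N)

/-- (EV3) The roots are separated. -/
def S_EV3 : Prop := ∀ ρ : ℝ, 0 < ρ → ∀ N : ℕ, 2 ≤ N →
  mN ρ N {z | ∃ i j, i ≠ j ∧ ‖z i - z j‖ < 1 / (N : ℝ) ^ 2} ≤
    ENNReal.ofReal (1 / (ρ ^ 2 * N ^ 2))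

/-- (NOC) No critical point close to a root. -/
def S_NOC : Prop := ∀ N : ℕ, 2 ≤ N → ∀ z : Fin N → ℂ,
  (∀ i j, i ≠ j → 1 / (N : ℝ) ^ 2 ≤ ‖z i - z j‖) → ∀ c : ℂ, (derivative (P z)).eval c = 0 →
    ∀ i, 1 / (N : ℝ) ^ 4 ≤ ‖c - z i‖

/-! ### Counting critical points -/

/-- (CNT) Counting roots in an annulus by Jensen's formula. -/
def S_CNT : Prop := ∀ D : ℂ[X], D ≠ 0 → ∀ r h : ℝ, 0 < r → 0 < h →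
  2 * h * ((D.roots.toFinset.filter
    (fun c => r * Real.exp (-(2 * h)) ≤ ‖c‖ ∧ ‖c‖ ≤ r * Real.exp (2 * h))).card : ℝ) ≤
    Real.circleAverage (fun w : ℂ => Real.log ‖D.eval w‖) 0 (r * Real.exp (4 * h)) +
    Real.circleAverage (fun w : ℂ => Real.log ‖D.eval w‖) 0 (r * Real.exp (-(4 * h))) -
    2 * Real.circleAverage (fun w : ℂ => Real.log ‖D.eval w‖) 0 r

/-- (JB) Expectation of the mean of `log |(P z)'|` on a circle. -/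
def S_JB : Prop := S_POTA → S_POTB → ∀ ρ B : ℝ, 0 < ρ → 0 < B → ∃ C : ℝ, 0 < C ∧
  ∀ N : ℕ, 2 ≤ N → ∀ r : ℝ, 0 < r → r ≤ B →
    Measurable (fun z : Fin N → ℂ => J z r) ∧ Integrable (fun z : Fin N → ℂ => J z r) (mN ρ N) ∧
    N * U ρ r - C ≤ ∫ z, J z r ∂(mN ρ N) ∧
    ∫ z, J z r ∂(mN ρ N) ≤ N * U ρ r + Real.log N + C

/-! ### Area of the window -/

/-- (AR1) -/
def S_AR1 : Prop := ∀ (F : ℂ[X]) (N : ℕ), 1 ≤ N → F.natDegree = N → ∀ l R η : ℝ, 0 < l → 0 < R →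
  0 < η →
  volume {w : ℂ | l ≤ ‖F.eval w‖ ∧ ‖F.eval w‖ ≤ R ∧
    η * N * ‖F.eval w‖ ≤ ‖(derivative F).eval w‖} ≤
    ENNReal.ofReal (Real.pi * R ^ 2 / (η ^ 2 * l ^ 2 * N))

/-- (AR2) -/
def S_AR2 : Prop := S_POTB → S_POTC → ∀ ρ r₁ r₂ η₀ : ℝ, 0 < ρ → 0 < r₁ → r₁ ≤ r₂ → 0 < η₀ →
  (∀ w : ℂ, r₁ ≤ ‖w‖ → ‖w‖ ≤ r₂ → η₀ ≤ ‖V ρ w‖) → ∃ η C : ℝ, 0 < η ∧ 0 < C ∧
  ∀ N : ℕ, 2 ≤ N → ∀ w : ℂ, r₁ ≤ ‖w‖ → ‖w‖ ≤ r₂ →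
    mN ρ N {z | ‖∑ i, (w - z i)⁻¹‖ < η * N} ≤ ENNReal.ofReal (C * Real.log N / N)

/-- conclusion of `S_AR` -/
def ARc : Prop := ∀ ρ l R : ℝ, 0 < ρ → ρ ^ 2 < Real.exp 1 → 0 < l → 0 < R → ∃ C : ℝ, 0 < C ∧
  ∀ N : ℕ, 2 ≤ N →
    ∫⁻ z, volume {w : ℂ | r0 ρ / 2 ≤ ‖w‖ ∧ ‖w‖ ≤ 2 * r0 ρ ∧ l ≤ ‖(P z).eval w‖ ∧
      ‖(P z).eval w‖ ≤ R} ∂(mN ρ N) ≤ ENNReal.ofReal (C * Real.log N / N)

/-- (AR) -/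
def S_AR : Prop := S_UU → S_POTB → S_POTC → S_AR1 → S_AR2 → ARc

/-! ### The bad set -/

/-- the bad root configurations: a critical point in the transition annulus whose value `v` is
neither small nor large, and such that the value at `v` is neither small nor large (or `v` is
extremely close to a root) -/
def Bad (ρ h : ℝ) (N : ℕ) : Set (Fin N → ℂ) :=
  {z | (∀ i, ‖z i‖ ≤ ρ) ∧ ∃ c : ℂ, r0 ρ * Real.exp (-h) ≤ ‖c‖ ∧ ‖c‖ ≤ r0 ρ * Real.exp h ∧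
    (derivative (P z)).eval c = 0 ∧ r0 ρ / 8 ≤ ‖(P z).eval c‖ ∧ ‖(P z).eval c‖ ≤ ρ + 3 ∧
    ((r0 ρ * Real.exp (-h) ≤ ‖(P z).eval c‖ ∧ ‖(P z).eval c‖ ≤ r0 ρ * Real.exp h ∧
      r0 ρ / 8 ≤ ‖(P z).eval ((P z).eval c)‖ ∧ ‖(P z).eval ((P z).eval c)‖ ≤ ρ + 3) ∨
      ∃ i, ‖(P z).eval c - z i‖ ≤ 1 / (N : ℝ) ^ 4)}

/-- (HYP) The deterministic conclusion. -/
def S_HYP : Prop := S_DYN → S_NOC → ∀ (ρ h : ℝ) (N : ℕ), 0 < ρ → ρ ^ 2 < Real.exp 1 → 0 < r0 ρ →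
  0 < h → h ≤ Real.log 2 → 2 ≤ N → 2 * (1 + ρ / 3) ≤ (3 : ℝ) ^ (N - 1) → r0 ρ / 8 ≤ ρ + 3 →
  ∀ z : Fin N → ℂ, (∀ i, ‖z i‖ ≤ ρ) →
  (∀ w : ℂ, ‖w‖ ≤ r0 ρ * Real.exp (-h) → ‖(P z).eval w‖ ≤ r0 ρ / 16) →
  (∀ w : ℂ, r0 ρ * Real.exp h ≤ ‖w‖ → (∀ i, 1 / (N : ℝ) ^ 4 ≤ ‖w - z i‖) →
    ρ + 3 < ‖(P z).eval w‖) →
  (∀ i j, i ≠ j → 1 / (N : ℝ) ^ 2 ≤ ‖z i - z j‖) → z ∉ Bad ρ h N → Hyp (P z)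

/-- (HYP2) The deterministic conclusion when everything escapes. -/
def S_HYP2 : Prop := S_NOC → ∀ (ρ : ℝ) (N : ℕ), 0 < ρ → 2 ≤ N →
  2 * (1 + ρ / 3) ≤ (3 : ℝ) ^ (N - 1) → ∀ z : Fin N → ℂ, (∀ i, ‖z i‖ ≤ ρ) →
  (∀ w : ℂ, (∀ i, 1 / (N : ℝ) ^ 4 ≤ ‖w - z i‖) → ρ + 3 < ‖(P z).eval w‖) →
  (∀ i j, i ≠ j → 1 / (N : ℝ) ^ 2 ≤ ‖z i - z j‖) → Hyp (P z)

/-- (CLO) The bad set is closed. -/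
def S_CLO : Prop := ∀ (ρ h : ℝ) (N : ℕ), 0 < ρ → IsClosed (Bad ρ h N)

/-- (SC) Scaling of the uniform measure. -/
def S_SC : Prop := ∀ (ρ : ℝ) (N : ℕ), 0 < ρ → 2 ≤ N → ∀ B : Set (Fin N → ℂ), MeasurableSet B →
  (∀ z ∈ B, ∀ i, ‖z i‖ ≤ ρ) → ∀ κ : ℂ, 1 ≤ ‖κ‖ → ‖κ‖ ≤ Real.exp (1 / ((N : ℝ) - 1)) →
    mN ρ N B ≤ ENNReal.ofReal (Real.exp 4) * mN ρ N {z | (fun i => κ * z i) ∈ B}

/-- (VOL) The uniform measure in terms of Lebesgue measure. -/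
def S_VOL : Prop := ∀ (ρ : ℝ) (N : ℕ), 0 < ρ →
  IsProbabilityMeasure (mN ρ N) ∧
  volume {z : Fin N → ℂ | ∀ i, ‖z i‖ ≤ ρ} ≠ 0 ∧ volume {z : Fin N → ℂ | ∀ i, ‖z i‖ ≤ ρ} ≠ ⊤ ∧
  (∀ᵐ z ∂(mN ρ N), ∀ i, ‖z i‖ ≤ ρ) ∧
  ∀ B : Set (Fin N → ℂ), volume (B ∩ {z : Fin N → ℂ | ∀ i, ‖z i‖ ≤ ρ}) =
    mN ρ N B * volume {z : Fin N → ℂ | ∀ i, ‖z i‖ ≤ ρ}

/-- the enlarged target set of the values -/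
def BB (ρ : ℝ) {N : ℕ} (z : Fin N → ℂ) : Set ℂ :=
  {u | (r0 ρ / 2 ≤ ‖u‖ ∧ ‖u‖ ≤ 2 * r0 ρ ∧ r0 ρ / (8 * Real.exp 2) ≤ ‖(P z).eval u‖ ∧
    ‖(P z).eval u‖ ≤ ρ + 3) ∨ ∃ i, ‖u - z i‖ ≤ 1 / (N : ℝ) ^ 4}

/-- number of critical points in the annulus -/
noncomputable def nc (ρ h : ℝ) {N : ℕ} (z : Fin N → ℂ) : ℕ :=
  ((derivative (P z)).roots.toFinset.filter
    (fun c => r0 ρ * Real.exp (-(2 * h)) ≤ ‖c‖ ∧ ‖c‖ ≤ r0 ρ * Real.exp (2 * h))).card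

/-- (FB) The bad scalings of one configuration. -/
def S_FB : Prop := S_NU → S_POW → S_CONJ → ∀ (ρ h : ℝ) (N : ℕ), 0 < ρ → 0 < r0 ρ →
  1 / ((N : ℝ) - 1) ≤ h → 2 * h ≤ Real.log 2 → 2 ≤ N → ∀ z : Fin N → ℂ,
    nu {κ : ℂ | 1 ≤ ‖κ‖ ∧ ‖κ‖ ≤ Real.exp (1 / ((N : ℝ) - 1)) ∧
      (fun i => κ * z i) ∈ Bad ρ h N} ≤
    ENNReal.ofReal (1 / ((N : ℝ) - 1)) * (nc ρ h z : ENNReal) *
      ENNReal.ofReal (64 * Real.exp 2 / r0 ρ ^ 2) * volume (BB ρ z)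

end Pool.Agent.W751.RR
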