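import Mathlib
import Pool.Agent.W751.RR.Stm
import Pool.Agent.W751.CD.Fib

/-!
# Monic polynomials with random roots in a disc: the assembly
-/

set_option autoImplicit false

open Polynomial Filter Topology MeasureTheory

namespace Pool.Agent.W751.RR

open Pool.Agent.W751.CD

/-- conclusion of `S_FB` -/
def FBc : Prop := ∀ (ρ h : ℝ) (N : ℕ), 0 < ρ → 0 < r0 ρ →
  1 / ((N : ℝ) - 1) ≤ h → 2 * h ≤ Real.log 2 → 2 ≤ N → ∀ z : Fin N → ℂ,
    nu {κ : ℂ | 1 ≤ ‖κ‖ ∧ ‖κ‖ ≤ Real.exp (1 / ((N : ℝ) - 1)) ∧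
      (fun i => κ * z i) ∈ Bad ρ h N} ≤
    ENNReal.ofReal (1 / ((N : ℝ) - 1)) * (nc ρ h z : ENNReal) *
      ENNReal.ofReal (64 * Real.exp 2 / r0 ρ ^ 2) * volume (BB ρ z)

/-- conclusion of `S_JB` -/
def JBc : Prop := ∀ ρ B : ℝ, 0 < ρ → 0 < B → ∃ C : ℝ, 0 < C ∧
  ∀ N : ℕ, 2 ≤ N → ∀ r : ℝ, 0 < r → r ≤ B →
    Measurable (fun z : Fin N → ℂ => J z r) ∧ Integrable (fun z : Fin N → ℂ => J z r) (mN ρ N) ∧
    N * U ρ r - C ≤ ∫ z, J z r ∂(mN ρ N) ∧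
    ∫ z, J z r ∂(mN ρ N) ≤ N * U ρ r + Real.log N + C

/-- the Jensen majorant of `nc` -/
noncomputable def JJ (ρ h : ℝ) {N : ℕ} (z : Fin N → ℂ) : ℝ :=
  (J z (r0 ρ * Real.exp (4 * h)) + J z (r0 ρ * Real.exp (-(4 * h))) - 2 * J z (r0 ρ)) / (2 * h)

theorem nc_le (hCNT : S_CNT) {ρ h : ℝ} {N : ℕ} (hN : 2 ≤ N) (hr : 0 < r0 ρ) (hh : 0 < h)
    (z : Fin N → ℂ) : (nc ρ h z : ℝ) ≤ JJ ρ h z := by
  have hD : derivative (P z) ≠ 0 := by
    intro h0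
    have := natDegree_eq_zero_of_derivative_eq_zero h0
    rw [P_natDegree] at this
    omega
  have := hCNT _ hD (r0 ρ) h hr hh
  rw [JJ, le_div_iff₀ (by positivity)]
  unfold nc J
  linarith

theorem int_JJ (hJB : JBc) (hUU : S_UU) {ρ : ℝ} (hρ : 0 < ρ) (hρe : ρ ^ 2 < Real.exp 1) :
    ∃ C : ℝ, 0 < C ∧ ∀ N : ℕ, 2 ≤ N → ∀ h : ℝ, 0 < h → 4 * h ≤ 1 →
      Measurable (fun z : Fin N → ℂ => JJ ρ h z) ∧
      Integrable (fun z : Fin N → ℂ => JJ ρ h z) (mN ρ N) ∧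
      ∫ z, JJ ρ h z ∂(mN ρ N) ≤ 16 * N * h + (Real.log N + C) / h := by
  obtain ⟨hr, hU0, ⟨c, hc, hU⟩, -⟩ := hUU.1 ρ hρ hρe
  obtain ⟨C, hC, hJ⟩ := hJB ρ (r0 ρ * Real.exp 1) hρ (by positivity)
  refine ⟨2 * C, by positivity, fun N hN h hh h4 => ?_⟩
  have e1 : Real.exp (4 * h) ≤ Real.exp 1 := Real.exp_le_exp.2 h4
  have e2 : Real.exp (-(4 * h)) ≤ Real.exp 1 := Real.exp_le_exp.2 (by linarith)
  have e3 : (1 : ℝ) ≤ Real.exp 1 := by
    have := Real.add_one_le_exp (1 : ℝ); linarith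
  obtain ⟨m1', i1, -, u1⟩ := hJ N hN (r0 ρ * Real.exp (4 * h)) (by positivity)
    (mul_le_mul_of_nonneg_left e1 hr.le)
  obtain ⟨m2, i2, -, u2⟩ := hJ N hN (r0 ρ * Real.exp (-(4 * h))) (by positivity)
    (mul_le_mul_of_nonneg_left e2 hr.le)
  obtain ⟨m3, i3, u3, -⟩ := hJ N hN (r0 ρ) hr (le_mul_of_one_le_right hr.le e3)
  have hUh := (hU (4 * h) (by positivity) h4).2.2
  refine ⟨?_, ?_, ?_⟩
  · unfold JJ
    exact ((m1'.add m2).sub (m3.const_mul 2)).div_const _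
  · unfold JJ
    exact ((i1.add i2).sub (i3.const_mul 2)).div_const _
  · have e : ∫ z, JJ ρ h z ∂(mN ρ N) = (∫ z, J z (r0 ρ * Real.exp (4 * h)) ∂(mN ρ N) +
        ∫ z, J z (r0 ρ * Real.exp (-(4 * h))) ∂(mN ρ N) - 2 * ∫ z, J z (r0 ρ) ∂(mN ρ N)) /
        (2 * h) := by
      unfold JJ
      rw [integral_div]
      congr 1
      have s1 : ∫ z, (J z (r0 ρ * Real.exp (4 * h)) + J z (r0 ρ * Real.exp (-(4 * h))) -
          2 * J z (r0 ρ)) ∂(mN ρ N) = ∫ z, (J z (r0 ρ * Real.exp (4 * h)) +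
          J z (r0 ρ * Real.exp (-(4 * h)))) ∂(mN ρ N) - ∫ z, 2 * J z (r0 ρ) ∂(mN ρ N) :=
        integral_sub (i1.add i2) (i3.const_mul 2)
      have s2 : ∫ z, (J z (r0 ρ * Real.exp (4 * h)) +
          J z (r0 ρ * Real.exp (-(4 * h)))) ∂(mN ρ N) = ∫ z, J z (r0 ρ * Real.exp (4 * h)) ∂(mN ρ N)
          + ∫ z, J z (r0 ρ * Real.exp (-(4 * h))) ∂(mN ρ N) := integral_add i1 i2
      rw [s1, s2, integral_const_mul]
    rw [e, div_le_iff₀ (by positivity)]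
    rw [hU0] at u3
    have hN0 : (0 : ℝ) ≤ N := Nat.cast_nonneg N
    have hmul := mul_le_mul_of_nonneg_left hUh hN0
    have : (16 * (N : ℝ) * h + (Real.log N + 2 * C) / h) * (2 * h) =
        32 * N * h ^ 2 + 2 * (Real.log N + 2 * C) := by
      field_simp
      ring
    rw [this]
    nlinarith [hmul, u1, u2, u3]

theorem vol_BB {ρ : ℝ} {N : ℕ} (hN : 2 ≤ N) (z : Fin N → ℂ) :
    volume (BB ρ z) ≤ volume {w : ℂ | r0 ρ / 2 ≤ ‖w‖ ∧ ‖w‖ ≤ 2 * r0 ρ ∧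
      r0 ρ / (8 * Real.exp 2) ≤ ‖(P z).eval w‖ ∧ ‖(P z).eval w‖ ≤ ρ + 3} +
      ENNReal.ofReal (4 / N) := by
  have hN0 : (0 : ℝ) < N := by positivity
  have h1 : BB ρ z ⊆ {w : ℂ | r0 ρ / 2 ≤ ‖w‖ ∧ ‖w‖ ≤ 2 * r0 ρ ∧
      r0 ρ / (8 * Real.exp 2) ≤ ‖(P z).eval w‖ ∧ ‖(P z).eval w‖ ≤ ρ + 3} ∪
      ⋃ i, Metric.closedBall (z i) (1 / (N : ℝ) ^ 4) := by
    intro u hu
    rcases hu with hu | ⟨i, hi⟩
    · exact Or.inl hu
    · refine Or.inr (Set.mem_iUnion.2 ⟨i, ?_⟩)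
      rw [Metric.mem_closedBall, dist_eq_norm]
      exact hi
  refine (measure_mono h1).trans ((measure_union_le _ _).trans ?_)
  gcongr
  refine (measure_iUnion_fintype_le _ _).trans ?_
  have h2 : ∀ i, volume (Metric.closedBall (z i) (1 / (N : ℝ) ^ 4)) ≤
      ENNReal.ofReal (4 / N ^ 2) := by
    intro i
    rw [Complex.volume_closedBall]
    rw [← ENNReal.ofReal_pow (by positivity), show (NNReal.pi : ENNReal) = ENNReal.ofReal Real.pi by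
      rw [← ENNReal.ofReal_coe_nnreal]; rfl, ← ENNReal.ofReal_mul (by positivity)]
    apply ENNReal.ofReal_le_ofReal
    have hpi : Real.pi ≤ 4 := Real.pi_le_four
    have h3 : (1 : ℝ) ≤ N := by exact_mod_cast (by omega : 1 ≤ N)
    have h4 : (1 / (N : ℝ) ^ 4) ^ 2 ≤ 1 / (N : ℝ) ^ 2 := by
      rw [div_pow, one_pow, ← pow_mul]
      apply one_div_le_one_div_of_le (by positivity)
      exact pow_le_pow_right₀ h3 (by norm_num)
    calc (1 / (N : ℝ) ^ 4) ^ 2 * Real.pi ≤ 1 / (N : ℝ) ^ 2 * 4 := by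
          apply mul_le_mul h4 hpi Real.pi_pos.le (by positivity)
      _ = 4 / (N : ℝ) ^ 2 := by ring
  calc ∑ i, volume (Metric.closedBall (z i) (1 / (N : ℝ) ^ 4)) ≤
        ∑ _i : Fin N, ENNReal.ofReal (4 / N ^ 2) := Finset.sum_le_sum fun i _ => h2 i
    _ = ENNReal.ofReal (4 / N) := by
        rw [Finset.sum_const, Finset.card_univ, Fintype.card_fin, nsmul_eq_mul,
          ← ENNReal.ofReal_natCast, ← ENNReal.ofReal_mul hN0.le]
        congr 1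
        field_simp

/-- averaging over the scalings -/
theorem average (hNU : S_NU) (hSC : S_SC) (hCLO : S_CLO) (hVOL : S_VOL) {ρ h : ℝ} {N : ℕ}
    (hρ : 0 < ρ) (hN : 2 ≤ N) :
    ENNReal.ofReal (2 * Real.pi * (1 / ((N : ℝ) - 1))) * mN ρ N (Bad ρ h N) ≤
      ENNReal.ofReal (Real.exp 4) * ∫⁻ z, nu {κ : ℂ | 1 ≤ ‖κ‖ ∧
        ‖κ‖ ≤ Real.exp (1 / ((N : ℝ) - 1)) ∧ (fun i => κ * z i) ∈ Bad ρ h N} ∂(mN ρ N) := by
  have := (hVOL ρ N hρ).1
  have hN1 : (0 : ℝ) < (N : ℝ) - 1 := by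
    have : (2 : ℝ) ≤ N := by exact_mod_cast hN
    linarith
  have hcl : IsClosed (Bad ρ h N) := hCLO ρ h N hρ
  set A : Set ℂ := {κ : ℂ | 1 ≤ ‖κ‖ ∧ ‖κ‖ ≤ Real.exp (1 / ((N : ℝ) - 1))} with hA
  have hAc : IsClosed A := by
    apply IsClosed.inter
    · exact isClosed_le continuous_const continuous_norm
    · exact isClosed_le continuous_norm continuous_const
  have hnuA : nu A = ENNReal.ofReal (2 * Real.pi * (1 / ((N : ℝ) - 1))) := by
    have := hNU.1 1 (Real.exp (1 / ((N : ℝ) - 1))) one_pos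
      (Real.one_le_exp (by positivity))
    rw [div_one, Real.log_exp] at this
    exact this
  have : SFinite nu := by unfold nu; infer_instance
  set S : Set (ℂ × (Fin N → ℂ)) := {p | p.1 ∈ A ∧ (fun i => p.1 * p.2 i) ∈ Bad ρ h N} with hS
  have hSc : IsClosed S := by
    apply IsClosed.inter
    · exact hAc.preimage continuous_fst
    · apply hcl.preimage
      fun_prop
  have h1 := Measure.prod_apply (μ := nu) (ν := mN ρ N) hSc.measurableSet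
  have h2 := Measure.prod_apply_symm (μ := nu) (ν := mN ρ N) hSc.measurableSet
  have h3 : ∫⁻ κ, mN ρ N (Prod.mk κ ⁻¹' S) ∂nu ≥
      ∫⁻ κ in A, mN ρ N (Prod.mk κ ⁻¹' S) ∂nu := setLIntegral_le_lintegral _ _
  have h4 : ENNReal.ofReal (Real.exp 4) * ∫⁻ κ in A, mN ρ N (Prod.mk κ ⁻¹' S) ∂nu ≥
      nu A * mN ρ N (Bad ρ h N) := by
    rw [← lintegral_const_mul' _ _ ENNReal.ofReal_ne_top]
    calc ∫⁻ κ in A, ENNReal.ofReal (Real.exp 4) * mN ρ N (Prod.mk κ ⁻¹' S) ∂nu ≥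
          ∫⁻ _κ in A, mN ρ N (Bad ρ h N) ∂nu := by
          apply setLIntegral_mono' hAc.measurableSet
          intro κ hκ
          have := hSC ρ N hρ hN (Bad ρ h N) hcl.measurableSet (fun z hz => hz.1) κ hκ.1 hκ.2
          refine this.trans ?_
          gcongr
          intro z hz
          exact ⟨hκ, hz⟩
      _ = nu A * mN ρ N (Bad ρ h N) := by
          rw [setLIntegral_const, mul_comm]
  rw [← hnuA]
  refine h4.le.trans ?_
  gcongr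
  refine h3.le.trans ?_
  rw [← h1, h2]
  apply le_of_eq
  congr 1
  ext z
  congr 1
  ext κ
  simp only [hS, hA, Set.mem_preimage, Set.mem_ofPred_eq]
  tauto

theorem pointwise (hFB : FBc) (hCNT : S_CNT) (hNU : S_NU) {ρ h t : ℝ} {N : ℕ} (hρ : 0 < ρ)
    (hr : 0 < r0 ρ) (hN : 2 ≤ N) (ht : 0 < t) (hh : 0 < h) (hNh : 1 / ((N : ℝ) - 1) ≤ h)
    (h2 : 2 * h ≤ Real.log 2) (z : Fin N → ℂ) :
    nu {κ : ℂ | 1 ≤ ‖κ‖ ∧ ‖κ‖ ≤ Real.exp (1 / ((N : ℝ) - 1)) ∧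
      (fun i => κ * z i) ∈ Bad ρ h N} ≤
    ENNReal.ofReal (1 / ((N : ℝ) - 1)) * (ENNReal.ofReal (2 * Real.pi / t) * volume (BB ρ z) +
      ENNReal.ofReal (64 * Real.exp 2 / r0 ρ ^ 2 * t) * ENNReal.ofReal (JJ ρ h z)) := by
  have hN1 : (0 : ℝ) < (N : ℝ) - 1 := by
    have : (2 : ℝ) ≤ N := by exact_mod_cast hN
    linarith
  have hnuA : nu {κ : ℂ | 1 ≤ ‖κ‖ ∧ ‖κ‖ ≤ Real.exp (1 / ((N : ℝ) - 1))} =
      ENNReal.ofReal (2 * Real.pi * (1 / ((N : ℝ) - 1))) := by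
    have := hNU.1 1 (Real.exp (1 / ((N : ℝ) - 1))) one_pos
      (Real.one_le_exp (by positivity))
    rw [div_one, Real.log_exp] at this
    exact this
  rcases le_total (ENNReal.ofReal t) (volume (BB ρ z)) with hV | hV
  · calc nu {κ : ℂ | 1 ≤ ‖κ‖ ∧ ‖κ‖ ≤ Real.exp (1 / ((N : ℝ) - 1)) ∧
          (fun i => κ * z i) ∈ Bad ρ h N} ≤
          nu {κ : ℂ | 1 ≤ ‖κ‖ ∧ ‖κ‖ ≤ Real.exp (1 / ((N : ℝ) - 1))} :=
          measure_mono fun κ hκ => ⟨hκ.1, hκ.2.1⟩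
      _ = ENNReal.ofReal (1 / ((N : ℝ) - 1)) * (ENNReal.ofReal (2 * Real.pi / t) *
          ENNReal.ofReal t) := by
          rw [hnuA, ← ENNReal.ofReal_mul (by positivity), ← ENNReal.ofReal_mul (by positivity)]
          congr 1
          field_simp
      _ ≤ _ := by
          gcongr
          exact (mul_le_mul_right hV _).trans le_self_add
  · calc nu {κ : ℂ | 1 ≤ ‖κ‖ ∧ ‖κ‖ ≤ Real.exp (1 / ((N : ℝ) - 1)) ∧
          (fun i => κ * z i) ∈ Bad ρ h N} ≤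
          ENNReal.ofReal (1 / ((N : ℝ) - 1)) * (nc ρ h z : ENNReal) *
            ENNReal.ofReal (64 * Real.exp 2 / r0 ρ ^ 2) * volume (BB ρ z) :=
          hFB ρ h N hρ hr hNh h2 hN z
      _ ≤ ENNReal.ofReal (1 / ((N : ℝ) - 1)) * ENNReal.ofReal (JJ ρ h z) *
            ENNReal.ofReal (64 * Real.exp 2 / r0 ρ ^ 2) * ENNReal.ofReal t := by
          gcongr
          rw [← ENNReal.ofReal_natCast]
          exact ENNReal.ofReal_le_ofReal (nc_le hCNT hN hr hh z)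
      _ = ENNReal.ofReal (1 / ((N : ℝ) - 1)) *
          (ENNReal.ofReal (64 * Real.exp 2 / r0 ρ ^ 2 * t) * ENNReal.ofReal (JJ ρ h z)) := by
          rw [ENNReal.ofReal_mul (by positivity : 0 ≤ 64 * Real.exp 2 / r0 ρ ^ 2)]
          ring
      _ ≤ _ := by
          gcongr
          exact le_add_self

/-- measure of the bad set, with a free parameter -/
theorem bad_raw (hFB : FBc) (hCNT : S_CNT) (hNU : S_NU) (hSC : S_SC) (hCLO : S_CLO)
    (hVOL : S_VOL) {ρ h t a b : ℝ} {N : ℕ} (hρ : 0 < ρ)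
    (hr : 0 < r0 ρ) (hN : 2 ≤ N) (ht : 0 < t) (hh : 0 < h) (hNh : 1 / ((N : ℝ) - 1) ≤ h)
    (h2 : 2 * h ≤ Real.log 2) (hm : Measurable (fun z : Fin N → ℂ => JJ ρ h z))
    (hi : Integrable (fun z : Fin N → ℂ => JJ ρ h z) (mN ρ N))
    (ha : ∫ z, JJ ρ h z ∂(mN ρ N) ≤ a)
    (hb : ∫⁻ z, volume (BB ρ z) ∂(mN ρ N) ≤ ENNReal.ofReal b) (hb0 : 0 ≤ b) (ha0 : 0 ≤ a) :
    mN ρ N (Bad ρ h N) ≤ ENNReal.ofReal (Real.exp 4 / (2 * Real.pi) *
      (2 * Real.pi / t * b + 64 * Real.exp 2 / r0 ρ ^ 2 * t * a)) := by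
  have hN1 : (0 : ℝ) < (N : ℝ) - 1 := by
    have : (2 : ℝ) ≤ N := by exact_mod_cast hN
    linarith
  have hpi := Real.pi_pos
  have h1 := average hNU hSC hCLO hVOL (h := h) hρ hN
  have h3 : ∫⁻ z, nu {κ : ℂ | 1 ≤ ‖κ‖ ∧
        ‖κ‖ ≤ Real.exp (1 / ((N : ℝ) - 1)) ∧ (fun i => κ * z i) ∈ Bad ρ h N} ∂(mN ρ N) ≤
      ENNReal.ofReal (1 / ((N : ℝ) - 1)) * (ENNReal.ofReal (2 * Real.pi / t) * ENNReal.ofReal b +
      ENNReal.ofReal (64 * Real.exp 2 / r0 ρ ^ 2 * t) * ENNReal.ofReal a) := by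
    refine (lintegral_mono fun z => pointwise hFB hCNT hNU hρ hr hN ht hh hNh h2 z).trans ?_
    rw [lintegral_const_mul' _ _ ENNReal.ofReal_ne_top]
    gcongr
    rw [lintegral_add_right _ (hm.ennreal_ofReal.const_mul _),
      lintegral_const_mul' _ _ ENNReal.ofReal_ne_top,
      lintegral_const_mul' _ _ ENNReal.ofReal_ne_top]
    have h4 : ∫⁻ z, ENNReal.ofReal (JJ ρ h z) ∂(mN ρ N) ≤ ENNReal.ofReal a := by
      rw [← ofReal_integral_eq_lintegral_ofReal hi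
        (Eventually.of_forall fun z => (Nat.cast_nonneg _).trans (nc_le hCNT hN hr hh z))]
      exact ENNReal.ofReal_le_ofReal ha
    gcongr
  have h5 : ENNReal.ofReal (2 * Real.pi * (1 / ((N : ℝ) - 1))) * mN ρ N (Bad ρ h N) ≤
      ENNReal.ofReal (2 * Real.pi * (1 / ((N : ℝ) - 1))) *
      ENNReal.ofReal (Real.exp 4 / (2 * Real.pi) *
      (2 * Real.pi / t * b + 64 * Real.exp 2 / r0 ρ ^ 2 * t * a)) := by
    refine h1.trans ?_
    refine (mul_le_mul_right h3 _).trans (le_of_eq ?_)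
    rw [← ENNReal.ofReal_mul (by positivity), ← ENNReal.ofReal_mul (by positivity),
      ← ENNReal.ofReal_add (by positivity) (by positivity), ← ENNReal.ofReal_mul (by positivity),
      ← ENNReal.ofReal_mul (by positivity), ← ENNReal.ofReal_mul (by positivity)]
    congr 1
    field_simp
  have hpos : 0 < 2 * Real.pi * (1 / ((N : ℝ) - 1)) := by positivity
  have e0 : ENNReal.ofReal (2 * Real.pi * (1 / ((N : ℝ) - 1))) ≠ 0 := by
    rw [Ne, ENNReal.ofReal_eq_zero, not_le]; exact hpos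
  exact (ENNReal.mul_le_mul_iff_right e0 ENNReal.ofReal_ne_top).1 h5

/-- measure of the bad set -/
theorem bad_bound (hFB : FBc) (hCNT : S_CNT) (hNU : S_NU) (hSC : S_SC) (hCLO : S_CLO)
    (hVOL : S_VOL) (hJB : JBc) (hUU : S_UU) (hAR : ARc) {ρ : ℝ} (hρ : 0 < ρ)
    (hρe : ρ ^ 2 < Real.exp 1) : ∀ K : ℝ, 0 < K → ∃ C : ℝ, 0 < C ∧ ∀ N : ℕ, 2 ≤ N →
      1 / ((N : ℝ) - 1) ≤ hN K N → 2 * hN K N ≤ Real.log 2 → 4 * hN K N ≤ 1 →
      mN ρ N (Bad ρ (hN K N) N) ≤ ENNReal.ofReal (C * (Real.log N / (N : ℝ) ^ (1 / 4 : ℝ))) := by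
  obtain ⟨hr, hU0, -, -⟩ := hUU.1 ρ hρ hρe
  obtain ⟨CJ, hCJ, hJ⟩ := int_JJ hJB hUU hρ hρe
  obtain ⟨CA, hCA, hA⟩ := hAR ρ (r0 ρ / (8 * Real.exp 2)) (ρ + 3) hρ hρe (by positivity)
    (by positivity)
  intro K hK
  have hpi := Real.pi_pos
  have hl2 : (1 : ℝ) / 2 < Real.log 2 := by
    have := Real.log_two_gt_d9; linarith
  set c₀ : ℝ := 64 * Real.exp 2 / r0 ρ ^ 2 with hc₀
  have hc₀p : 0 < c₀ := by positivity
  refine ⟨Real.exp 4 / (2 * Real.pi) * (2 * Real.pi * (CA + 8) +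
    c₀ * (2 * (16 * K + (1 + 2 * CJ) / K))), by positivity, fun N hN h1 h2 h4 => ?_⟩
  set h := RR.hN K N with hh
  have hN2 : (2 : ℝ) ≤ N := by exact_mod_cast hN
  have hN0 : (0 : ℝ) < N := by positivity
  have hL : Real.log 2 ≤ Real.log N := Real.log_le_log (by norm_num) hN2
  set L := Real.log N with hLd
  have hL0 : 1 / 2 < L := hl2.trans_le hL
  have hh0 : 0 < h := by
    rw [hh, RR.hN]
    have : 0 < L / N := by positivity
    exact mul_pos hK (Real.sqrt_pos.2 this)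
  obtain ⟨m, i, hJu⟩ := hJ N hN h hh0 h4
  have hNL : Real.sqrt (N * L) ≤ 2 * Real.sqrt N * L := by
    rw [Real.sqrt_mul hN0.le]
    have : Real.sqrt L ≤ 2 * L := by
      rw [Real.sqrt_le_left (by positivity)]
      nlinarith
    nlinarith [Real.sqrt_nonneg N]
  have ha : ∫ z, JJ ρ h z ∂(mN ρ N) ≤ 2 * (16 * K + (1 + 2 * CJ) / K) * (Real.sqrt N * L) := by
    refine hJu.trans ?_
    have e1 : (N : ℝ) * h = K * Real.sqrt (N * L) := by
      rw [hh, RR.hN, Real.sqrt_div' _ hN0.le, Real.sqrt_mul hN0.le, ← hLd]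
      have := Real.sq_sqrt hN0.le
      field_simp
      rw [this]
    have e2 : L / h = Real.sqrt (N * L) / K := by
      rw [hh, RR.hN, Real.sqrt_div' _ hN0.le, Real.sqrt_mul hN0.le, ← hLd]
      have := Real.sq_sqrt (show 0 ≤ L by positivity)
      have h3 : 0 < Real.sqrt L := Real.sqrt_pos.2 (by positivity)
      field_simp
      rw [this]
    have e3 : (L + CJ) / h ≤ (1 + 2 * CJ) * (L / h) := by
      rw [← mul_div_assoc]
      apply div_le_div_of_nonneg_right _ hh0.le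
      nlinarith
    calc 16 * (N : ℝ) * h + (L + CJ) / h ≤ 16 * (N * h) + (1 + 2 * CJ) * (L / h) := by
          rw [mul_assoc]; gcongr
      _ = (16 * K + (1 + 2 * CJ) / K) * Real.sqrt (N * L) := by rw [e1, e2]; ring
      _ ≤ (16 * K + (1 + 2 * CJ) / K) * (2 * Real.sqrt N * L) := by gcongr
      _ = _ := by ring
  have hb : ∫⁻ z, volume (BB ρ z) ∂(mN ρ N) ≤ ENNReal.ofReal ((CA + 8) * (L / N)) := by
    refine (lintegral_mono fun z => vol_BB hN z).trans ?_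
    rw [lintegral_add_right _ measurable_const, lintegral_const]
    have := (hVOL ρ N hρ).1
    rw [measure_univ, mul_one]
    refine (add_le_add_left (hA N hN) _).trans ?_
    rw [← ENNReal.ofReal_add (by positivity) (by positivity)]
    apply ENNReal.ofReal_le_ofReal
    have : 4 / (N : ℝ) ≤ 8 * (L / N) := by
      rw [← mul_div_assoc]
      apply div_le_div_of_nonneg_right _ hN0.le
      linarith
    calc CA * Real.log N / N + 4 / N ≤ CA * (L / N) + 8 * (L / N) := by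
          rw [mul_div_assoc]; gcongr
      _ = _ := by ring
  have ht : 0 < (N : ℝ) ^ (-(3 / 4) : ℝ) := Real.rpow_pos_of_pos hN0 _
  refine (bad_raw hFB hCNT hNU hSC hCLO hVOL hρ hr hN ht hh0 h1 h2 m i ha hb (by positivity)
    (by positivity)).trans ?_
  apply ENNReal.ofReal_le_ofReal
  apply le_of_eq
  have e1 : (N : ℝ) ^ (-(3 / 4) : ℝ) * Real.sqrt N = ((N : ℝ) ^ (1 / 4 : ℝ))⁻¹ := by
    rw [Real.sqrt_eq_rpow, ← Real.rpow_add hN0, ← Real.rpow_neg hN0.le]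
    norm_num
  have e2 : ((N : ℝ) ^ (-(3 / 4) : ℝ))⁻¹ * (N : ℝ)⁻¹ = ((N : ℝ) ^ (1 / 4 : ℝ))⁻¹ := by
    rw [← Real.rpow_neg hN0.le, ← Real.rpow_neg_one, ← Real.rpow_add hN0, ← Real.rpow_neg hN0.le]
    norm_num
  calc Real.exp 4 / (2 * Real.pi) * (2 * Real.pi / (N : ℝ) ^ (-(3 / 4) : ℝ) * ((CA + 8) * (L / N)) +
        c₀ * (N : ℝ) ^ (-(3 / 4) : ℝ) * (2 * (16 * K + (1 + 2 * CJ) / K) * (Real.sqrt N * L))) =
        Real.exp 4 / (2 * Real.pi) * (2 * Real.pi * (CA + 8) * L *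
          (((N : ℝ) ^ (-(3 / 4) : ℝ))⁻¹ * (N : ℝ)⁻¹) +
          c₀ * (2 * (16 * K + (1 + 2 * CJ) / K)) * L *
          ((N : ℝ) ^ (-(3 / 4) : ℝ) * Real.sqrt N)) := by
        ring
    _ = _ := by
        rw [e1, e2]
        ring

end Pool.Agent.W751.RR
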