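import Mathlib
import Pool.Agent.W751.RR.Fin

/-!
# Monic polynomials with random roots in a disc: the main theorem
-/

set_option autoImplicit false

open Polynomial Filter Topology MeasureTheory

namespace Pool.Agent.W751.RR

open Pool.Agent.W751.CD

theorem tendsto_hN (K : ℝ) : Tendsto (fun N : ℕ => hN K N) atTop (𝓝 0) := by
  have h1 : Tendsto (fun N : ℕ => Real.log N / N) atTop (𝓝 0) :=
    (Real.isLittleO_log_id_atTop.tendsto_div_nhds_zero).comp tendsto_natCast_atTop_atTop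
  have h2 := (h1.sqrt).const_mul K
  simpa [hN] using h2

theorem hN_large {K : ℝ} (hK : 0 < K) : ∀ᶠ N : ℕ in atTop, 1 / ((N : ℝ) - 1) ≤ hN K N := by
  have hl2 : (1 : ℝ) / 2 < Real.log 2 := by
    have := Real.log_two_gt_d9; linarith
  have h1 : ∀ᶠ N : ℕ in atTop, (16 / K ^ 2 : ℝ) ≤ N :=
    tendsto_natCast_atTop_atTop.eventually_ge_atTop _
  filter_upwards [h1, eventually_ge_atTop 2] with N h2 h3
  have hN2 : (2 : ℝ) ≤ N := by exact_mod_cast h3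
  have hN0 : (0 : ℝ) < N := by positivity
  have hL : Real.log 2 ≤ Real.log N := Real.log_le_log (by norm_num) hN2
  have e1 : 1 / ((N : ℝ) - 1) ≤ 2 / N := by
    rw [div_le_div_iff₀ (by linarith) hN0]
    linarith
  refine e1.trans ?_
  unfold hN
  have e2 : (1 / 2) ^ 2 / (N : ℝ) ≤ Real.log N / N := by
    apply div_le_div_of_nonneg_right _ hN0.le
    nlinarith
  have e3 : Real.sqrt ((1 / 2) ^ 2 / (N : ℝ)) = (1 / 2) / Real.sqrt N := by
    rw [Real.sqrt_div' _ hN0.le, Real.sqrt_sq (by norm_num)]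
  have e4 : (1 / 2) / Real.sqrt N ≤ Real.sqrt (Real.log N / N) := by
    rw [← e3]; exact Real.sqrt_le_sqrt e2
  have hs : 0 < Real.sqrt N := Real.sqrt_pos.2 hN0
  have e5 : 4 / K ≤ Real.sqrt N := by
    apply Real.le_sqrt_of_sq_le
    rw [div_pow]
    norm_num
    exact h2
  calc 2 / (N : ℝ) = 2 / (Real.sqrt N * Real.sqrt N) := by rw [Real.mul_self_sqrt hN0.le]
    _ = (2 / Real.sqrt N) / Real.sqrt N := by rw [div_div]
    _ ≤ (K / 2) / Real.sqrt N := by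
        apply div_le_div_of_nonneg_right _ hs.le
        rw [div_le_div_iff₀ hs (by norm_num)]
        have := mul_le_mul_of_nonneg_left e5 hK.le
        rw [mul_div_cancel₀ _ hK.ne'] at this
        linarith
    _ = K * ((1 / 2) / Real.sqrt N) := by ring
    _ ≤ _ := mul_le_mul_of_nonneg_left e4 hK.le

theorem of_large {ρ : ℝ} (hρ : 0 < ρ) (hVOL : S_VOL) {b : ℕ → ℝ} (hb : ∀ N, 2 ≤ N → 0 < b N)
    {C : ℝ} (hC : 0 < C)
    (h : ∀ᶠ N : ℕ in atTop, mN ρ N {z | ¬ Hyp (P z)} ≤ ENNReal.ofReal (C * b N)) :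
    ∃ C' : ℝ, 0 < C' ∧ ∀ N : ℕ, 2 ≤ N → mN ρ N {z | ¬ Hyp (P z)} ≤ ENNReal.ofReal (C' * b N) := by
  obtain ⟨N₀, hN₀⟩ := eventually_atTop.1 h
  have hs : ∀ N, 0 ≤ |(b N)⁻¹| := fun N => abs_nonneg _
  have hS : 0 ≤ ∑ N ∈ Finset.range N₀, |(b N)⁻¹| := Finset.sum_nonneg fun N _ => hs N
  refine ⟨C + ∑ N ∈ Finset.range N₀, |(b N)⁻¹|, by positivity, fun N hN => ?_⟩
  have hbN := hb N hN
  rcases le_or_gt N₀ N with h1 | h1
  · refine (hN₀ N h1).trans (ENNReal.ofReal_le_ofReal ?_)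
    gcongr
    linarith
  · have := (hVOL ρ N hρ).1
    refine prob_le_one.trans ?_
    rw [← ENNReal.ofReal_one]
    apply ENNReal.ofReal_le_ofReal
    have h2 : |(b N)⁻¹| ≤ ∑ N ∈ Finset.range N₀, |(b N)⁻¹| :=
      Finset.single_le_sum (f := fun N => |(b N)⁻¹|) (fun N _ => hs N) (Finset.mem_range.2 h1)
    have h3 : (b N)⁻¹ ≤ C + ∑ N ∈ Finset.range N₀, |(b N)⁻¹| :=
      (le_abs_self _).trans (h2.trans (by linarith))
    calc (1 : ℝ) = (b N)⁻¹ * b N := (inv_mul_cancel₀ hbN.ne').symm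
      _ ≤ _ := mul_le_mul_of_nonneg_right h3 hbN.le

theorem rate {N : ℕ} (hN : 2 ≤ N) :
    0 < Real.log N / (N : ℝ) ^ (1 / 4 : ℝ) ∧
    1 / (N : ℝ) ≤ 2 * (Real.log N / (N : ℝ) ^ (1 / 4 : ℝ)) := by
  have hl2 : (1 : ℝ) / 2 < Real.log 2 := by
    have := Real.log_two_gt_d9; linarith
  have hN2 : (2 : ℝ) ≤ N := by exact_mod_cast hN
  have hN0 : (0 : ℝ) < N := by positivity
  have hL : Real.log 2 ≤ Real.log N := Real.log_le_log (by norm_num) hN2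
  have hL0 : 0 < Real.log N := by linarith
  have hp : 0 < (N : ℝ) ^ (1 / 4 : ℝ) := Real.rpow_pos_of_pos hN0 _
  refine ⟨by positivity, ?_⟩
  have h1 : (N : ℝ) ^ (1 / 4 : ℝ) ≤ N := by
    calc (N : ℝ) ^ (1 / 4 : ℝ) ≤ (N : ℝ) ^ (1 : ℝ) :=
          Real.rpow_le_rpow_of_exponent_le (by linarith) (by norm_num)
      _ = N := Real.rpow_one _
  rw [← mul_div_assoc, div_le_div_iff₀ hN0 hp]
  nlinarith

theorem r0_le {ρ : ℝ} (hρ : 0 < ρ) : r0 ρ ≤ ρ + 3 := by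
  unfold r0
  split_ifs with h
  · linarith
  · have h1 : 0 ≤ Real.log ρ := Real.log_nonneg (by linarith)
    have h2 : Real.sqrt (1 - 2 * Real.log ρ) ≤ 1 := by
      rw [Real.sqrt_le_left (by norm_num)]
      linarith
    nlinarith

/-- the case `ρ ^ 2 < e` -/
theorem caseA (hUU : S_UU) (hMOM : MOMc) (hE1 : S_EV1) (hE2 : S_EV2) (hE3 : S_EV3)
    (hNOC : S_NOC) (hDYN : S_DYN) (hHYP : S_HYP) (hFB : FBc) (hCNT : S_CNT) (hNU : S_NU)
    (hSC : S_SC) (hCLO : S_CLO) (hVOL : S_VOL) (hJB : JBc) (hAR : ARc) {ρ : ℝ} (hρ : 0 < ρ)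
    (hρe : ρ ^ 2 < Real.exp 1) : ∃ C : ℝ, 0 < C ∧ ∀ N : ℕ, 2 ≤ N →
      mN ρ N {z | ¬ Hyp (P z)} ≤ ENNReal.ofReal (C * (Real.log N / (N : ℝ) ^ (1 / 4 : ℝ))) := by
  obtain ⟨hr, hU0, ⟨c, hc, hU⟩, -⟩ := hUU.1 ρ hρ hρe
  obtain ⟨K₁, hK₁, H1⟩ := hE1 hMOM ρ c (r0 ρ / 16) hρ hc (by positivity)
  obtain ⟨K₂, hK₂, H2⟩ := hE2 hMOM ρ c hρ hc
  set K := max K₁ K₂ with hKd
  have hK : 0 < K := hK₁.trans_le (le_max_left _ _)
  obtain ⟨C₁, hC₁, H1'⟩ := H1 K (le_max_left _ _)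
  obtain ⟨C₂, hC₂, H2'⟩ := H2 K (le_max_right _ _)
  obtain ⟨CB, hCB, HB⟩ := bad_bound hFB hCNT hNU hSC hCLO hVOL hJB hUU hAR hρ hρe K hK
  have hl2 : (1 : ℝ) / 2 < Real.log 2 := by
    have := Real.log_two_gt_d9; linarith
  have hr3 := r0_le hρ
  apply of_large hρ hVOL (fun N hN => (rate hN).1)
    (C := 2 * C₁ + 2 * C₂ + 2 * (1 / ρ ^ 2) + CB) (by positivity)
  have h3 : ∀ᶠ N : ℕ in atTop, hN K N < 1 / 4 :=
    (tendsto_hN K).eventually_lt_const (by norm_num)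
  have h4 : ∀ᶠ N : ℕ in atTop, 6 * (1 + ρ / 3) ≤ (3 : ℝ) ^ N :=
    (tendsto_pow_atTop_atTop_of_one_lt (by norm_num : (1 : ℝ) < 3)).eventually_ge_atTop _
  filter_upwards [hN_large hK, h3, h4, eventually_ge_atTop 2] with N a1 a2 a3 hN
  have hNr : (2 : ℝ) ≤ N := by exact_mod_cast hN
  have hN0 : (0 : ℝ) < N := by positivity
  set h := RR.hN K N with hh
  have hh0 : 0 < h := by
    have h5 : 0 < 1 / ((N : ℝ) - 1) := by
      have : 0 < (N : ℝ) - 1 := by linarith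
      positivity
    exact h5.trans_le a1
  have a4 : 2 * (1 + ρ / 3) ≤ (3 : ℝ) ^ (N - 1) := by
    have e : (3 : ℝ) ^ N = 3 ^ (N - 1) * 3 := by
      rw [← pow_succ]; congr 1; omega
    rw [e] at a3
    linarith
  have hsub : {z : Fin N → ℂ | ¬ Hyp (P z)} ⊆ {z | ¬ ∀ i, ‖z i‖ ≤ ρ} ∪
      ({z | ∃ w : ℂ, ‖w‖ ≤ ρ + 3 ∧ U ρ ‖w‖ ≤ -(c * h) ∧ r0 ρ / 16 < ‖(P z).eval w‖} ∪
      ({z | ∃ w : ℂ, c * h ≤ U ρ ‖w‖ ∧ (∀ i, 1 / (N : ℝ) ^ 4 ≤ ‖w - z i‖) ∧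
        ‖(P z).eval w‖ ≤ ρ + 3} ∪
      ({z | ∃ i j, i ≠ j ∧ ‖z i - z j‖ < 1 / (N : ℝ) ^ 2} ∪ Bad ρ h N))) := by
    intro z hz
    by_contra hcon
    simp only [Set.mem_union, not_or] at hcon
    obtain ⟨b0, b1, b2, b3, b4⟩ := hcon
    apply hz
    have b0' : ∀ i, ‖z i‖ ≤ ρ := by
      by_contra hb; exact b0 hb
    refine hHYP hDYN hNOC ρ h N hρ hρe hr hh0 (by linarith) hN a4 (by linarith) z b0' ?_ ?_ ?_ b4
    · intro w hw
      by_contra hb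
      refine b1 ⟨w, ?_, (hU h hh0.le (by linarith)).1 _ (norm_nonneg _) hw, not_le.1 hb⟩
      have : Real.exp (-h) ≤ 1 := Real.exp_le_one_iff.2 (by linarith)
      nlinarith
    · intro w hw hd
      by_contra hb
      exact b2 ⟨w, (hU h hh0.le (by linarith)).2.1 _ hw, hd, not_lt.1 hb⟩
    · intro i j hij
      by_contra hb
      exact b3 ⟨i, j, hij, not_le.1 hb⟩
  have hz : mN ρ N {z | ¬ ∀ i, ‖z i‖ ≤ ρ} = 0 := (hVOL ρ N hρ).2.2.2.1
  have hR := (rate hN).2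
  set R := Real.log N / (N : ℝ) ^ (1 / 4 : ℝ) with hRd
  calc mN ρ N {z : Fin N → ℂ | ¬ Hyp (P z)} ≤ 0 + (ENNReal.ofReal (C₁ / N) +
        (ENNReal.ofReal (C₂ / N) + (ENNReal.ofReal (1 / (ρ ^ 2 * N ^ 2)) +
          ENNReal.ofReal (CB * R)))) := by
        refine (measure_mono hsub).trans ?_
        refine (measure_union_le _ _).trans (add_le_add hz.le ?_)
        refine (measure_union_le _ _).trans (add_le_add (H1' N hN) ?_)
        refine (measure_union_le _ _).trans (add_le_add (H2' N hN) ?_)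
        exact (measure_union_le _ _).trans (add_le_add (hE3 ρ hρ N hN)
          (HB N hN a1 (by linarith) (by linarith)))
    _ = ENNReal.ofReal (C₁ / N + (C₂ / N + (1 / (ρ ^ 2 * N ^ 2) + CB * R))) := by
        have hR0 : 0 ≤ CB * R := mul_nonneg hCB.le (rate hN).1.le
        rw [zero_add, ← ENNReal.ofReal_add (by positivity) hR0,
          ← ENNReal.ofReal_add (by positivity) (by positivity),
          ← ENNReal.ofReal_add (by positivity) (by positivity)]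
    _ ≤ _ := by
        apply ENNReal.ofReal_le_ofReal
        have e1 : C₁ / N ≤ 2 * C₁ * R := by
          calc C₁ / N = C₁ * (1 / N) := by ring
            _ ≤ C₁ * (2 * R) := mul_le_mul_of_nonneg_left hR hC₁.le
            _ = _ := by ring
        have e2 : C₂ / N ≤ 2 * C₂ * R := by
          calc C₂ / N = C₂ * (1 / N) := by ring
            _ ≤ C₂ * (2 * R) := mul_le_mul_of_nonneg_left hR hC₂.le
            _ = _ := by ring
        have e3 : 1 / (ρ ^ 2 * (N : ℝ) ^ 2) ≤ 2 * (1 / ρ ^ 2) * R := by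
          calc 1 / (ρ ^ 2 * (N : ℝ) ^ 2) = (1 / ρ ^ 2) * (1 / (N : ℝ) ^ 2) := by
                rw [one_div_mul_one_div]
            _ ≤ (1 / ρ ^ 2) * (1 / N) := by
                gcongr
                nlinarith
            _ ≤ (1 / ρ ^ 2) * (2 * R) := mul_le_mul_of_nonneg_left hR (by positivity)
            _ = _ := by ring
        linarith

/-- the case `ρ ^ 2 > e` -/
theorem caseB (hUU : S_UU) (hMOM : MOMc) (hE2 : S_EV2) (hE3 : S_EV3)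
    (hNOC : S_NOC) (hHYP2 : S_HYP2) (hVOL : S_VOL) {ρ : ℝ} (hρ : 0 < ρ)
    (hρe : Real.exp 1 < ρ ^ 2) : ∃ C : ℝ, 0 < C ∧ ∀ N : ℕ, 2 ≤ N →
      mN ρ N {z | ¬ Hyp (P z)} ≤ ENNReal.ofReal (C * (1 / (N : ℝ))) := by
  obtain ⟨c, hc, hU⟩ := hUU.2 ρ hρ hρe
  obtain ⟨K, hK, H2⟩ := hE2 hMOM ρ 1 hρ one_pos
  obtain ⟨C₂, hC₂, H2'⟩ := H2 K le_rfl
  apply of_large hρ hVOL (fun N hN => by
    have : (0 : ℝ) < N := by exact_mod_cast (by omega : 0 < N)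
    positivity) (C := C₂ + 1 / ρ ^ 2) (by positivity)
  have h3 : ∀ᶠ N : ℕ in atTop, hN K N < c := (tendsto_hN K).eventually_lt_const hc
  have h4 : ∀ᶠ N : ℕ in atTop, 6 * (1 + ρ / 3) ≤ (3 : ℝ) ^ N :=
    (tendsto_pow_atTop_atTop_of_one_lt (by norm_num : (1 : ℝ) < 3)).eventually_ge_atTop _
  filter_upwards [h3, h4, eventually_ge_atTop 2] with N a2 a3 hN
  have hNr : (2 : ℝ) ≤ N := by exact_mod_cast hN
  have hN0 : (0 : ℝ) < N := by positivity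
  have a4 : 2 * (1 + ρ / 3) ≤ (3 : ℝ) ^ (N - 1) := by
    have e : (3 : ℝ) ^ N = 3 ^ (N - 1) * 3 := by
      rw [← pow_succ]; congr 1; omega
    rw [e] at a3
    linarith
  have hsub : {z : Fin N → ℂ | ¬ Hyp (P z)} ⊆ {z | ¬ ∀ i, ‖z i‖ ≤ ρ} ∪
      ({z | ∃ w : ℂ, 1 * RR.hN K N ≤ U ρ ‖w‖ ∧ (∀ i, 1 / (N : ℝ) ^ 4 ≤ ‖w - z i‖) ∧
        ‖(P z).eval w‖ ≤ ρ + 3} ∪
      {z | ∃ i j, i ≠ j ∧ ‖z i - z j‖ < 1 / (N : ℝ) ^ 2}) := by
    intro z hz
    by_contra hcon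
    simp only [Set.mem_union, not_or] at hcon
    obtain ⟨b0, b2, b3⟩ := hcon
    apply hz
    have b0' : ∀ i, ‖z i‖ ≤ ρ := by
      by_contra hb; exact b0 hb
    refine hHYP2 hNOC ρ N hρ hN a4 z b0' ?_ ?_
    · intro w hd
      by_contra hb
      exact b2 ⟨w, by linarith [hU ‖w‖ (norm_nonneg _)], hd, not_lt.1 hb⟩
    · intro i j hij
      by_contra hb
      exact b3 ⟨i, j, hij, not_le.1 hb⟩
  have hz : mN ρ N {z | ¬ ∀ i, ‖z i‖ ≤ ρ} = 0 := (hVOL ρ N hρ).2.2.2.1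
  calc mN ρ N {z : Fin N → ℂ | ¬ Hyp (P z)} ≤ 0 + (ENNReal.ofReal (C₂ / N) +
        ENNReal.ofReal (1 / (ρ ^ 2 * N ^ 2))) := by
        refine (measure_mono hsub).trans ?_
        refine (measure_union_le _ _).trans (add_le_add hz.le ?_)
        exact (measure_union_le _ _).trans (add_le_add (H2' N hN) (hE3 ρ hρ N hN))
    _ = ENNReal.ofReal (C₂ / N + 1 / (ρ ^ 2 * N ^ 2)) := by
        rw [zero_add, ← ENNReal.ofReal_add (by positivity) (by positivity)]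
    _ ≤ _ := by
        apply ENNReal.ofReal_le_ofReal
        have e2 : C₂ / N = C₂ * (1 / N) := by ring
        have e3 : 1 / (ρ ^ 2 * (N : ℝ) ^ 2) ≤ (1 / ρ ^ 2) * (1 / N) := by
          calc 1 / (ρ ^ 2 * (N : ℝ) ^ 2) = (1 / ρ ^ 2) * (1 / (N : ℝ) ^ 2) := by
                rw [one_div_mul_one_div]
            _ ≤ (1 / ρ ^ 2) * (1 / N) := by
                gcongr
                nlinarith
        rw [e2]
        linarith

end Pool.Agent.W751.RR
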